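import Mathlib
import Pool.Agent.Mg.F163ab5.G7584df

set_option autoImplicit false

namespace Pool.Agent.Results.MP_caa27d_co.DenseTwo

open Pool.Agent.MP_163ab5_co Pool.Agent.MP_caa27d_co
open scoped Classical

theorem other (V : Finset ℕ) (x : ℕ) (hx : x ∉ V) (F : Finset (Finset ℕ))
    (hU : ∀ X ∈ F, X ⊆ insert x V) (h2 : 2 ≤ V.card) (hc : ∀ X ∈ F, ∀ Y ∈ F, X ∪ Y ∈ F)
    (hd : 11 * 2 ^ V.card ≤ 8 * F.card) :
    ∃ y ∈ V, F.card ≤ 2 * (F.filter (fun X => y ∈ X)).card := by
  let e : Fin V.card → ℕ := fun i => (V.equivFin.symm i).1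
  have e1 : Function.Injective e := Subtype.val_injective.comp V.equivFin.symm.injective
  have e2 : ∀ i, e i ∈ V := fun i => (V.equivFin.symm i).2
  have e3 : ∀ a ∈ V, ∃ i, e i = a := fun a ha => ⟨V.equivFin ⟨a, ha⟩, by simp [e]⟩
  let S : Cube V.card → Finset ℕ := fun z => (Finset.univ.filter fun i => z i = true).image e
  let T : Finset ℕ → Cube V.card := fun X i => decide (e i ∈ X)
  have m1 : ∀ z i, e i ∈ S z ↔ z i = true := fun z i => by simp [S, e1.eq_iff]
  have m2 : ∀ X, X ⊆ V → S (T X) = X := fun X hX => by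
    ext a
    constructor
    · intro h
      obtain ⟨i, hi, rfl⟩ := Finset.mem_image.1 h
      simpa [T] using hi
    · intro h
      obtain ⟨i, rfl⟩ := e3 a (hX h)
      simpa [m1, T] using h
  have m3 : ∀ z, T (S z) = z := fun z => funext fun i => by simp [T, m1]
  have m4 : ∀ z, S z ⊆ V := fun z a h => by
    obtain ⟨i, -, rfl⟩ := Finset.mem_image.1 h
    exact e2 i
  have m5 : ∀ z w, S (fun i => z i || w i) = S z ∪ S w := fun z w => by
    ext a
    simp only [S, Finset.mem_image, Finset.mem_union, Finset.mem_filter, Finset.mem_univ, true_and,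
      Bool.or_eq_true, or_and_right, exists_or]
  have sm : ∀ g : Finset ℕ → ℤ, (∀ X, g (insert x X) = g X) →
      ∑ z, (ind (fun z => S z ∈ F ∨ insert x (S z) ∈ F) z +
        ind (fun z => S z ∈ F ∧ insert x (S z) ∈ F) z) * g (S z) = ∑ X ∈ F, g X := by
    intro g hg
    have h1 : ∑ X ∈ F, g X = ∑ X ∈ (insert x V).powerset, if X ∈ F then g X else 0 := by
      rw [← Finset.sum_filter]
      congr 1
      ext X
      simpa using hU X
    rw [h1, Finset.sum_powerset_insert hx, ← Finset.sum_add_distrib]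
    refine Finset.sum_nbij' S T (fun z _ => Finset.mem_powerset.2 (m4 z))
      (fun X _ => Finset.mem_univ _) (fun z _ => m3 z) (fun X hX => m2 X (Finset.mem_powerset.1 hX))
      fun z _ => ?_
    by_cases a : S z ∈ F <;> by_cases b : insert x (S z) ∈ F <;> simp [ind, a, b, hg, two_mul]
  have h1 := sm (fun _ => 1) fun _ => rfl
  simp only [mul_one, Finset.sum_const, nsmul_eq_mul, Finset.sum_add_distrib] at h1
  obtain ⟨i, hi⟩ := pair (G := fun z => S z ∈ F ∨ insert x (S z) ∈ F)
    (H := fun z => S z ∈ F ∧ insert x (S z) ∈ F) (fun z w hz hw => by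
      rw [m5]
      rcases hz with hz | hz <;> rcases hw with hw | hw
      · exact Or.inl (hc _ hz _ hw)
      · exact Or.inr (Finset.union_insert x _ _ ▸ hc _ hz _ hw)
      · exact Or.inr (Finset.insert_union x _ _ ▸ hc _ hz _ hw)
      · exact Or.inr (Finset.insert_union_distrib x _ _ ▸ hc _ hz _ hw))
    (fun z w hz hw => by
      rw [m5]
      exact ⟨hc _ hz.1 _ hw.1, Finset.union_insert x _ _ ▸ hc _ hz.1 _ hw.2⟩)
    (fun z hz => Or.inl hz.1) h2 (by rw [h1]; exact_mod_cast hd)
  have h3 := sm (fun X => 1 - 2 * if e i ∈ X then 1 else 0) fun X => by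
    simp [show e i ≠ x from fun h => hx (h ▸ e2 i)]
  rw [cc, cc, ← Finset.sum_add_distrib, Finset.sum_congr rfl fun z _ => show _ =
    (ind (fun z => S z ∈ F ∨ insert x (S z) ∈ F) z +
      ind (fun z => S z ∈ F ∧ insert x (S z) ∈ F) z) * (1 - 2 * if e i ∈ S z then 1 else 0) by
      simp only [m1, ← add_mul]
      cases z i <;> simp [sg], h3, Finset.sum_sub_distrib, ← Finset.mul_sum,
    Finset.sum_boole] at hi
  refine ⟨e i, e2 i, ?_⟩
  have h4 : (F.card : ℤ) ≤ 2 * (F.filter (fun X => e i ∈ X)).card := by simpa using hi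
  exact_mod_cast h4

/-- A union-closed family of subsets of a finite set `U` with at least three elements that contains
at least `11 / 16` of all subsets has two distinct elements each lying in at least half of its
members. -/
theorem result (U : Finset ℕ) (F : Finset (Finset ℕ)) (hU : ∀ X ∈ F, X ⊆ U) (h3 : 3 ≤ U.card)
    (hc : ∀ X ∈ F, ∀ Y ∈ F, X ∪ Y ∈ F) (hd : 11 * 2 ^ U.card ≤ 16 * F.card) :
    ∃ x ∈ U, ∃ y ∈ U, x ≠ y ∧ F.card ≤ 2 * (F.filter (fun X => x ∈ X)).card ∧
      F.card ≤ 2 * (F.filter (fun X => y ∈ X)).card := by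
  have key : ∀ x ∈ U, ∃ y ∈ U.erase x, F.card ≤ 2 * (F.filter (fun X => y ∈ X)).card := by
    intro x hx
    have h1 := Finset.card_erase_add_one hx
    refine other _ x (Finset.notMem_erase x U) F (by rwa [Finset.insert_erase hx]) (by omega) hc ?_
    rw [← h1, pow_succ] at hd
    omega
  obtain ⟨a, ha⟩ := Finset.card_pos.1 (show 0 < U.card by omega)
  obtain ⟨x, hx, h1⟩ := key a ha
  obtain ⟨y, hy, h2⟩ := key x (Finset.mem_of_mem_erase hx)
  exact ⟨x, Finset.mem_of_mem_erase hx, y, Finset.mem_of_mem_erase hy,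
    (Finset.ne_of_mem_erase hy).symm, h1, h2⟩

end Pool.Agent.Results.MP_caa27d_co.DenseTwo
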