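import Mathlib
import Pool.Agent.Mg.Fcaa27d.G9b1e37

set_option autoImplicit false

namespace Pool.Agent.Results.MP_caa27d_co.ManyFrequent

/-- A union-closed family with more than `2^(5000(k-1))` members, `k ≥ 2`, has `k` elements each
lying in at least `0.384 |F|` members. -/
theorem result (F : Finset (Finset ℕ)) (hc : ∀ A ∈ F, ∀ B ∈ F, A ∪ B ∈ F) (k : ℕ) (hk : 2 ≤ k)
    (hF : 2 ^ (5000 * (k - 1)) < F.card) :
    ∃ S : Finset ℕ, S.card = k ∧
      ∀ x ∈ S, 384 * F.card ≤ 1000 * (F.filter (fun A => x ∈ A)).card := by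
  obtain ⟨W, h1, h2⟩ := Pool.Agent.MP_caa27d_co.E.main hc
    (Finset.card_pos.1 (lt_of_le_of_lt (Nat.zero_le _) hF)) Pool.Agent.MP_caa27d_co.E.num_all
  have h3 := (Nat.pow_lt_pow_iff_right one_lt_two).1 (hF.trans_le h1)
  obtain ⟨S, hS, e⟩ := Finset.exists_subset_card_eq (s := W) (n := k) (by omega)
  exact ⟨S, e, fun x hx => h2 x (hS hx)⟩

end Pool.Agent.Results.MP_caa27d_co.ManyFrequent
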