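import Pool.Agent.MP_caa27d_co.H.Main

set_option autoImplicit false

namespace Pool.Agent.Results.MP_caa27d_co.TwoFrequent

/-- A union-closed family with a member of size at least two, other than a family consisting of
the empty set, a singleton and one more set, has two distinct elements each lying in at least
`0.384 |F|` members. -/
theorem result (F : Finset (Finset ℕ)) (hc : ∀ A ∈ F, ∀ B ∈ F, A ∪ B ∈ F)
    (h2 : ∃ A ∈ F, 2 ≤ A.card) (h3 : ∀ (x : ℕ) (T : Finset ℕ), F ≠ {∅, {x}, T}) :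
    ∃ x y : ℕ, x ≠ y ∧ 384 * F.card ≤ 1000 * (F.filter (fun A => x ∈ A)).card ∧
      384 * F.card ≤ 1000 * (F.filter (fun A => y ∈ A)).card := by
  obtain ⟨x, -, hx⟩ := Pool.Agent.MP_caa27d_co.H.other hc h2 h3 0
  obtain ⟨y, hy, h⟩ := Pool.Agent.MP_caa27d_co.H.other hc h2 h3 x
  exact ⟨x, y, hy.symm, hx, h⟩

end Pool.Agent.Results.MP_caa27d_co.TwoFrequent
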