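import Mathlib
import Pool.Agent.Mg.Fcaa27da.Gfa426a

set_option autoImplicit false

namespace Pool.Agent.Results.MP_caa27d_co.VCMany

/-- A union-closed family that is large in terms of its VC-dimension and `k` has `k + 1` elements
each lying in more than half of its members. -/
theorem result (F : Finset (Finset ℕ)) (hc : ∀ A ∈ F, ∀ B ∈ F, A ∪ B ∈ F) (k : ℕ)
    (hk : 2 ^ 2 ^ (1230 * (F.vcDim + 1) ^ 3 + 10 * k) < F.card) :
    ∃ S : Finset ℕ, S.card = k + 1 ∧
      ∀ x ∈ S, F.card < 2 * (F.filter (fun A => x ∈ A)).card := by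
  set W := (F.biUnion id).filter fun x => F.card < 2 * (F.filter (fun A => x ∈ A)).card
  have h1 := Pool.Agent.MP_163ab5_co.VC.main hc W fun e he => by
    by_contra hn
    refine he (Finset.mem_filter.2 ⟨?_, not_le.1 hn⟩)
    obtain ⟨X, hX⟩ : (F.filter fun Y => e ∈ Y).Nonempty := Finset.card_pos.1 (by omega)
    exact Finset.mem_biUnion.2 ⟨X, (Finset.mem_filter.1 hX).1, (Finset.mem_filter.1 hX).2⟩
  have h2 := (Nat.pow_lt_pow_iff_right one_lt_two).1
    ((Nat.pow_lt_pow_iff_right one_lt_two).1 (hk.trans_le h1))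
  obtain ⟨S, hS, e⟩ := Finset.exists_subset_card_eq (s := W) (n := k + 1) (by omega)
  exact ⟨S, e, fun x hx => (Finset.mem_filter.1 (hS hx)).2⟩

end Pool.Agent.Results.MP_caa27d_co.VCMany
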